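import Mathlib
import Pool.Agent.helper1.FI.SpecQ2
import Pool.Agent.helper1.FI.BaseQ2

set_option autoImplicit false

namespace Pool.Agent.FI

open Pool.Agent.helper58.DC Pool.Agent.DI Pool.Agent.GR Pool.Agent.OB

theorem QA0 (hEQR : EQR_stmt) (hIDM : IDM_stmt) (hEIN : EIN_stmt) (hCVF : CVF_stmt)
    (hCCI : CCI_stmt) (hEXP : EXP_stmt) : QA0_stmt := by
  classical
  intro p M hS G _ _ D H hD hc hDH θ hθ
  have hDC : D ≤ cz D := le_cz_of_com hc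
  have hK : H ⊓ cz D = cz D := inf_eq_right.2 hDH
  have hBR : BR M H θ H = Bl M H θ := rfl
  have hsub : BR M H θ (cz D) ⊆ IrrOn (cz D) := fun ψ hψ => hψ.1
  have h1 : EqmF M (rsk (cz D) (eBl M H θ)) (eS (cz D) (BR M H θ (cz D))) := by
    refine EqmF.rsk_of_mem hS (hIDM G (cz D) _ hsub).1.2 fun x hx => ?_
    have h2 := hEQR p M hS G H H D le_rfl (hDC.trans hDH) hD hc θ x (by rw [hK]; exact hx)
    rw [hK, hBR] at h2
    exact h2
  have h2 : cv (eBl M (cz D) θ) (eS (cz D) (BR M H θ (cz D))) = eBl M (cz D) θ := by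
    have hCF1 := eBl_CF hIDM M (cz D) θ
    have hCF2 := (hIDM G (cz D) _ hsub).1
    have hCF3 : CF (cz D) (cv (eBl M (cz D) θ) (eS (cz D) (BR M H θ (cz D)))) :=
      ((hCVF G).2.2.2.2.2.2.2.1 (cz D) _ _ hCF1 hCF2).1
    have hCF4 : CF (cz D) (cv (eBl M (cz D) θ) (eS (cz D) (BR M H θ (cz D))) - eBl M (cz D) θ) :=
      ((hCVF G).2.2.2.2.2.2.2.1 (cz D) _ _ hCF3 hCF1).2.2
    have h3 := hEXP G (cz D) _ hCF4 fun ψ hψ => ?_
    · exact sub_eq_zero.1 h3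
    · rw [((hCCI G (cz D) ψ hψ).1 1 _ _).2.1, (hCCI G (cz D) ψ hψ).2.1 _ _ hCF1 hCF2,
        eBl_cc hIDM M (cz D) θ hψ, (hIDM G (cz D) _ hsub).2.1 ψ hψ]
      by_cases h4 : ψ ∈ Bl M (cz D) θ
      · have h5 : ψ ∈ BR M H θ (cz D) :=
          ⟨hψ, TRNb hDH (fun x hx => IrrOn_zero hψ hx) (fun x hx => IrrOn_zero hθ hx) h4.2⟩
        rw [if_pos h4, if_pos h5]
        ring
      · rw [if_neg h4]
        ring
  have h3 := EqmF.cvr hS (eBl_int hEIN hS (cz D) θ) h1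
  rw [h2] at h3
  exact h3

end Pool.Agent.FI
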