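import Mathlib
import Pool.Agent.helper1.FI.SpecQ2
import Pool.Agent.helper1.FI.BaseQ2
import Pool.Agent.helper70.FI.SpecQ1

set_option autoImplicit false

namespace Pool.Agent.FI

open Pool.Agent.helper58.DC Pool.Agent.DI Pool.Agent.GR Pool.Agent.OB

theorem QMT (hQEV : QEV_stmt) : QMT_stmt :=
  fun G _ _ C K h j hs hi hv ψ hψ => hQEV G K C h j hs hi hv ψ hψ

theorem QMB (hQEU : QEU_stmt) (hIDM : IDM_stmt) : QMB_stmt := by
  intro G _ _ C K h j hs hi hv S hS he ψ hψ
  have h1 : cv j (eS C S) = j := by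
    rw [← cv_comm_Inv (hIDM G C S hS).1.2 hv]
    exact he
  exact hQEU G K C h j hs hi hv S hS h1 ψ hψ

end Pool.Agent.FI
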